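import Pool.Agent.Lib.MP_6b7756_an.Schur

/-!
Assembly: pointwise limits of coefficients on groups with tube supported kernels.
-/

set_option autoImplicit false
set_option linter.unusedSectionVars false

open scoped ComplexOrder InnerProductSpace ComplexConjugate Topology Pointwise ENNReal
open Filter Set MeasureTheory

noncomputable section

namespace Pool.Agent.Lib.MP_6b7756_an

variable {G : Type} [Group G] [TopologicalSpace G] [IsTopologicalGroup G]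
  {H : Type} [NormedAddCommGroup H] [InnerProductSpace ℂ H] [CompleteSpace H]
  {σ : G → H →L[ℂ] H}

theorem hull_subset_of_submodule {η : H} {U : Set G} {P : Submodule ℂ H} (hP : IsClosed (P : Set H))
    (h : ∀ u ∈ U, σ u η ∈ P) : hull σ η U ⊆ P := by
  apply closure_minimal _ hP
  apply convexHull_min
  · rintro _ ⟨u, hu, rfl⟩
    exact h u hu
  · intro x hx y hy a b _ _ _
    have h1 : ∀ (c : ℝ), ∀ z ∈ P, c • z ∈ P := by
      intro c z hz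
      have : c • z = (c : ℂ) • z := (Complex.coe_smul c z).symm
      rw [this]
      exact P.smul_mem _ hz
    exact P.add_mem (h1 a x hx) (h1 b y hy)

theorem inner_hull_zero (hσ : IsRep σ) {η : H} {U : Set G} {g : G}
    (h : ∀ u ∈ U, ∀ u' ∈ U, ⟪σ (u'⁻¹ * g * u) η, η⟫_ℂ = 0) {x y : H} (hx : x ∈ hull σ η U)
    (hy : y ∈ hull σ η U) : ⟪σ g x, y⟫_ℂ = 0 := by
  have h0 : ∀ u ∈ U, ∀ u' ∈ U, ⟪σ g (σ u η), σ u' η⟫_ℂ = 0 := by
    intro u hu u' hu'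
    rw [← h u hu u' hu', ← hσ.inner u'⁻¹, ← hσ.mul, ← hσ.mul, ← hσ.mul, inv_mul_cancel, hσ.one,
      mul_assoc]
  have h1 : ∀ u' ∈ U, ∀ x ∈ hull σ η U, ⟪σ g x, σ u' η⟫_ℂ = 0 := by
    intro u' hu' x hx
    have h2 : hull σ η U ⊆ (LinearMap.ker
        ((innerSL ℂ (σ u' η)).comp (σ g)).toLinearMap : Submodule ℂ H) := by
      apply hull_subset_of_submodule
      · exact ((innerSL ℂ (σ u' η)).comp (σ g)).isClosed_ker
      · intro u hu
        rw [LinearMap.mem_ker]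
        change ⟪σ u' η, σ g (σ u η)⟫_ℂ = 0
        rw [inner_eq_zero_symm]
        exact h0 u hu u' hu'
    have h3 := h2 hx
    rw [SetLike.mem_coe, LinearMap.mem_ker] at h3
    rw [inner_eq_zero_symm]
    exact h3
  have h2 : hull σ η U ⊆ (LinearMap.ker (innerSL ℂ (σ g x)).toLinearMap : Submodule ℂ H) := by
    apply hull_subset_of_submodule
    · exact (innerSL ℂ (σ g x)).isClosed_ker
    · intro u hu
      rw [LinearMap.mem_ker]
      exact h1 u hu x hx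
  have h3 := h2 hy
  rw [SetLike.mem_coe, LinearMap.mem_ker] at h3
  exact h3

theorem coeff_close (hσ : IsRep σ) {η η' : H} {δ A : ℝ} (h1 : ‖η' - η‖ ≤ δ) (h2 : ‖η‖ ≤ A)
    (g : G) : ‖⟪σ g η, η⟫_ℂ - ⟪σ g η', η'⟫_ℂ‖ ≤ δ * (2 * A + δ) := by
  have h0 : 0 ≤ δ := (norm_nonneg _).trans h1
  have h3 : ⟪σ g η, η⟫_ℂ - ⟪σ g η', η'⟫_ℂ = ⟪σ g (η - η'), η⟫_ℂ + ⟪σ g η', η - η'⟫_ℂ := by
    rw [map_sub, inner_sub_left, inner_sub_right]
    ring
  have h4 : ‖η'‖ ≤ A + δ := by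
    have := norm_add_le (η' - η) η
    rw [sub_add_cancel] at this
    linarith
  have h5 : ‖⟪σ g (η - η'), η⟫_ℂ‖ ≤ δ * A := by
    refine (norm_inner_le_norm _ _).trans ?_
    rw [norm_map hσ, norm_sub_rev]
    exact mul_le_mul h1 h2 (norm_nonneg _) h0
  have h6 : ‖⟪σ g η', η - η'⟫_ℂ‖ ≤ (A + δ) * δ := by
    refine (norm_inner_le_norm _ _).trans ?_
    rw [norm_map hσ, norm_sub_rev η]
    exact mul_le_mul h4 h1 (norm_nonneg _) ((norm_nonneg _).trans h4)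
  rw [h3]
  refine (norm_add_le _ _).trans ?_
  linarith

variable [LocallyCompactSpace G] [T2Space G] [MeasurableSpace G] [BorelSpace G]
  {μ : Measure G} [μ.IsHaarMeasure]

theorem main_step {φ : G → ℂ} (hφ : Continuous φ)
    (hcl : φ ∈ closure {ψ : G → ℂ | ∃ ξ : G → ℂ, MemLp ξ 2 μ ∧ ∀ x, ψ x = coeff μ ξ x})
    (hker : ∀ C : Set G, IsCompact C → ∀ ε : ℝ, 0 < ε → ∃ (L : Set G) (k : G → G → ℂ),
      IsCompact L ∧ PositiveType k ∧ (∀ x, Measurable (fun y => k y (x⁻¹ * y))) ∧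
      (∀ a b, a * b⁻¹ ∉ L → k a b = 0) ∧ ∀ a b, a * b⁻¹ ∈ C → ‖k a b - 1‖ ≤ ε)
    {K : Set G} (hK : IsCompact K) {ε : ℝ} (hε : 0 < ε) :
    ∃ ξ : G → ℂ, MemLp ξ 2 μ ∧ ∀ x ∈ K, ‖φ x - coeff μ ξ x‖ < ε := by
  obtain ⟨M, hM⟩ : ∃ M, M = ‖φ 1‖ := ⟨_, rfl⟩
  have hM0 : 0 ≤ M := by rw [hM]; exact norm_nonneg _
  -- choice of constants
  obtain ⟨e, he0, he1, he2⟩ : ∃ e : ℝ, 0 < e ∧ e < 1 ∧
      e * M + Real.sqrt (2 * (2 * (e * M) + e)) *
        (2 * Real.sqrt (2 * M) + Real.sqrt (2 * (2 * (e * M) + e))) < ε / 2 := by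
    have h1 : Tendsto (fun e : ℝ => e * M + Real.sqrt (2 * (2 * (e * M) + e)) *
        (2 * Real.sqrt (2 * M) + Real.sqrt (2 * (2 * (e * M) + e)))) (𝓝[>] 0)
        (𝓝 (0 * M + Real.sqrt (2 * (2 * (0 * M) + 0)) *
        (2 * Real.sqrt (2 * M) + Real.sqrt (2 * (2 * (0 * M) + 0))))) := by
      apply Tendsto.mono_left _ nhdsWithin_le_nhds
      exact Continuous.tendsto (by fun_prop) 0
    simp only [zero_mul, mul_zero, add_zero, Real.sqrt_zero] at h1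
    have h2 := h1.eventually_lt_const (half_pos hε)
    have h3 : ∀ᶠ e : ℝ in 𝓝[>] 0, e < 1 :=
      mem_nhdsWithin_of_mem_nhds (Iio_mem_nhds one_pos)
    obtain ⟨e, ⟨h4, h5⟩, h6⟩ := ((h2.and h3).and self_mem_nhdsWithin).exists
    exact ⟨e, h6, h5, h4⟩
  -- a compact neighbourhood of the identity
  have hU0 : {g : G | ‖φ g - φ 1‖ < e} ∈ 𝓝 (1 : G) := by
    have h1 := Metric.tendsto_nhds.mp (hφ.tendsto 1) e he0
    filter_upwards [h1] with g hg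
    rwa [dist_eq_norm] at hg
  obtain ⟨U, hU1, hU2, hU3⟩ := local_compact_nhds hU0
  obtain ⟨L, k, hL1, hk1, hk2, hk3, hk4⟩ := hker (K ∪ U) (hK.union hU3) e he0
  have h1U : (1 : G) ∈ U := mem_of_mem_nhds hU1
  have hc : ∀ a b, ‖k a b‖ ≤ 2 := by
    apply hk1.norm_le
    intro x
    have h1 := hk4 x x (by rw [mul_inv_cancel]; exact Or.inr h1U)
    have h2 := norm_add_le (k x x - 1) 1
    rw [sub_add_cancel, norm_one] at h2
    linarith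
  obtain ⟨ψ, hψ1, hψ2, hψ3⟩ := exists_limit hk2 hc hk1 he0.le hk4 hk3 hcl
  rw [← hM] at hψ2
  obtain ⟨H, _, _, _, σ, η, hσ, hη⟩ := exists_rep ψ hψ1
  have hψ11 : ‖ψ 1 - φ 1‖ ≤ e * M := hψ2 1 (Or.inr h1U)
  have hη1 : ((‖η‖ ^ 2 : ℝ) : ℂ) = ψ 1 := by
    rw [← hη 1, hσ.one, inner_self_eq_norm_sq_to_K]
    simp
  have hη2 : ‖η‖ ^ 2 ≤ 2 * M := by
    have h1 : ‖η‖ ^ 2 = ‖ψ 1‖ := by
      rw [← hη1, Complex.norm_real, Real.norm_eq_abs, abs_of_nonneg (by positivity)]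
    rw [h1]
    have h2 := norm_add_le (ψ 1 - φ 1) (φ 1)
    rw [sub_add_cancel, ← hM] at h2
    nlinarith
  have hη3 : ‖η‖ ≤ Real.sqrt (2 * M) := Real.le_sqrt_of_sq_le hη2
  obtain ⟨δ, hδ⟩ : ∃ δ, δ = Real.sqrt (2 * (2 * (e * M) + e)) := ⟨_, rfl⟩
  have hmove : ∀ u ∈ U, ‖σ u η - η‖ ≤ δ := by
    intro u hu
    rw [hδ]
    apply Real.le_sqrt_of_sq_le
    have h1 : ‖σ u η - η‖ ^ 2 = 2 * (ψ 1 - ψ u).re := by
      rw [@norm_sub_sq ℂ, norm_map hσ, hη u, Complex.sub_re, ← hη1, Complex.ofReal_re]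
      simp
      ring
    rw [h1]
    have h2 : ‖ψ 1 - ψ u‖ ≤ 2 * (e * M) + e := by
      have h3 : ψ 1 - ψ u = (ψ 1 - φ 1) - (φ u - φ 1) - (ψ u - φ u) := by ring
      rw [h3]
      have h4 := norm_sub_le (ψ 1 - φ 1 - (φ u - φ 1)) (ψ u - φ u)
      have h5 := norm_sub_le (ψ 1 - φ 1) (φ u - φ 1)
      have h6 : ‖φ u - φ 1‖ < e := hU2 hu
      have h7 := hψ2 u (Or.inr hu)
      linarith
    have h3 := Complex.re_le_norm (ψ 1 - ψ u)
    linarith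
  obtain ⟨η', hη'1, hη'2, hη'3⟩ := exists_smooth hσ η hU1 hmove
  have hsupp : HasCompactSupport (fun g => ⟪σ g η', η'⟫_ℂ) := by
    apply HasCompactSupport.intro (K := U * L * U⁻¹)
    · exact (hU3.mul hL1).mul hU3.inv
    · intro g hg
      apply inner_hull_zero hσ _ hη'3 hη'3
      intro u hu u' hu'
      rw [hη]
      apply hψ3
      intro hmem
      apply hg
      refine ⟨u' * (u'⁻¹ * g * u), ⟨u', hu', _, hmem, rfl⟩, u⁻¹, Set.inv_mem_inv.mpr hu, ?_⟩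
      group
  obtain ⟨ζ, hζ⟩ := coeff_approx (μ := μ) hσ hη'2 hsupp (half_pos hε)
  refine ⟨ζ, Lp.memLp ζ, fun x hx => ?_⟩
  have h1 := hζ x
  rw [lreg_inner] at h1
  have h2 := coeff_close hσ hη'1 hη3 x
  rw [hη] at h2
  have h3 := hψ2 x (Or.inl hx)
  have h4 : φ x - coeff μ ζ x = -(ψ x - φ x) + (ψ x - ⟪σ x η', η'⟫_ℂ) +
      (⟪σ x η', η'⟫_ℂ - coeff μ ζ x) := by ring
  rw [h4]
  have h5 := norm_add_le (-(ψ x - φ x) + (ψ x - ⟪σ x η', η'⟫_ℂ)) (⟪σ x η', η'⟫_ℂ - coeff μ ζ x)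
  have h6 := norm_add_le (-(ψ x - φ x)) (ψ x - ⟪σ x η', η'⟫_ℂ)
  rw [norm_neg] at h6
  rw [← hδ] at he2
  have h7 : ‖⟪σ x η', η'⟫_ℂ - coeff μ ζ x‖ < ε / 2 := h1
  linarith

end Pool.Agent.Lib.MP_6b7756_an
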