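import Mathlib

/-!
Positive type kernels, the Hilbert space of a positive type kernel and the unitary representation
of a group attached to a positive definite function.
-/

set_option autoImplicit false

open scoped ComplexOrder InnerProductSpace ComplexConjugate

noncomputable section

namespace Pool.Agent.Lib.MP_6b7756_an

/-- A kernel `K : X × X → ℂ` is of positive type if the sums `∑ conj (c a) c b K a b` over
finite sets are nonnegative real numbers. -/
def PositiveType {X : Type} (K : X → X → ℂ) : Prop :=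
  ∀ (s : Finset X) (c : X → ℂ), 0 ≤ ∑ a ∈ s, ∑ b ∈ s, conj (c a) * c b * K a b

theorem PositiveType.diag_nonneg {X : Type} {K : X → X → ℂ} (h : PositiveType K) (x : X) :
    0 ≤ K x x := by
  have := h {x} (fun _ => 1)
  simpa using this

theorem PositiveType.pair {X : Type} {K : X → X → ℂ} (h : PositiveType K) {x y : X} (hxy : x ≠ y)
    (a b : ℂ) : 0 ≤ conj a * a * K x x + conj a * b * K x y + conj b * a * K y x +
      conj b * b * K y y := by
  classical
  have := h {x, y} (fun z => if z = x then a else b)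
  rw [Finset.sum_pair hxy, Finset.sum_pair hxy, Finset.sum_pair hxy] at this
  simp only [if_true, if_neg hxy.symm] at this
  linear_combination this

theorem PositiveType.symm {X : Type} {K : X → X → ℂ} (h : PositiveType K) (x y : X) :
    conj (K x y) = K y x := by
  by_cases hxy : x = y
  · subst hxy
    have := h.diag_nonneg x
    rw [Complex.nonneg_iff] at this
    apply Complex.ext <;> simp [← this.2]
  · have h1 := (Complex.nonneg_iff.mp (h.pair hxy 1 1)).2
    have h2 := (Complex.nonneg_iff.mp (h.pair hxy 1 Complex.I)).2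
    have hx := (Complex.nonneg_iff.mp (h.diag_nonneg x)).2
    have hy := (Complex.nonneg_iff.mp (h.diag_nonneg y)).2
    simp at h1 h2
    apply Complex.ext
    · simp; linarith
    · simp; linarith

/-- The Hilbert space of a positive type kernel. -/
theorem exists_hilbert {X : Type} (K : X → X → ℂ) (hK : PositiveType K) :
    ∃ (H : Type) (_ : NormedAddCommGroup H) (_ : InnerProductSpace ℂ H) (_ : CompleteSpace H)
      (κ : X → H), (∀ x y, ⟪κ x, κ y⟫_ℂ = K x y) ∧
        (Submodule.span ℂ (Set.range κ)).topologicalClosure = ⊤ := by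
  classical
  let M : Matrix X X (ℂ →L[ℂ] ℂ) := Matrix.of fun x y => K x y • ContinuousLinearMap.id ℂ ℂ
  have hM : M.PosSemidef := by
    have h0 : M.PosSemidef ↔ M.IsHermitian ∧ ∀ (vv : X →₀ ℂ),
        0 ≤ RCLike.re (vv.sum fun x w ↦ vv.sum fun x' w' ↦ ⟪M x' x w, w'⟫_ℂ) :=
      (RKHS.posSemidef_tfae (K := M)).out 0 2
    refine h0.mpr ⟨?_, fun vv => ?_⟩
    · ext x y
      rw [Matrix.conjTranspose_apply]
      simp only [M, Matrix.of_apply, star_smul, ContinuousLinearMap.star_eq_adjoint,
        ContinuousLinearMap.adjoint_id]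
      simp [← hK.symm y x]
    · have h1 := (Complex.nonneg_iff.mp (hK vv.support vv)).1
      refine h1.trans_eq ?_
      rw [Finset.sum_comm]
      simp only [M, Matrix.of_apply, Finsupp.sum, Complex.re_sum, map_sum]
      refine Finset.sum_congr rfl fun x _ => Finset.sum_congr rfl fun y _ => ?_
      simp
      ring
  have : Fact M.PosSemidef := ⟨hM⟩
  refine ⟨RKHS.OfKernel M, inferInstance, inferInstance, inferInstance,
    fun x => RKHS.kerFun (RKHS.OfKernel M) x 1, ?_, ?_⟩
  · intro x y
    rw [← RKHS.kernel_inner, RKHS.OfKernel.kernel_ofKernel]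
    simp [M, ← hK.symm y x]
  · rw [← RKHS.kerFun_dense (H := RKHS.OfKernel M)]
    congr 1
    apply le_antisymm
    · apply Submodule.span_mono
      rintro _ ⟨x, rfl⟩
      exact ⟨x, 1, rfl⟩
    · rw [Submodule.span_le]
      rintro _ ⟨x, v, rfl⟩
      have : RKHS.kerFun (RKHS.OfKernel M) x v = v • RKHS.kerFun (RKHS.OfKernel M) x 1 := by
        rw [← map_smul, smul_eq_mul, mul_one]
      rw [this]
      exact Submodule.smul_mem _ _ (Submodule.subset_span ⟨x, rfl⟩)

/-- A function `ψ` on a group is positive definite if the kernel `ψ (b⁻¹ a)` is of positive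
type. -/
def PosDef {G : Type} [Group G] (ψ : G → ℂ) : Prop :=
  PositiveType (fun a b : G => ψ (b⁻¹ * a))

/-- `σ` is a unitary representation of the abstract group `G` on `H`. -/
structure IsRep {G : Type} [Group G] {H : Type} [NormedAddCommGroup H] [InnerProductSpace ℂ H]
    (σ : G → H →L[ℂ] H) : Prop where
  one : ∀ x, σ 1 x = x
  mul : ∀ g h x, σ (g * h) x = σ g (σ h x)
  inner : ∀ g x y, ⟪σ g x, σ g y⟫_ℂ = ⟪x, y⟫_ℂ

theorem exists_rep {G : Type} [Group G] (ψ : G → ℂ) (hψ : PosDef ψ) :
    ∃ (H : Type) (_ : NormedAddCommGroup H) (_ : InnerProductSpace ℂ H) (_ : CompleteSpace H)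
      (σ : G → H →L[ℂ] H) (η : H), IsRep σ ∧ ∀ g, ⟪σ g η, η⟫_ℂ = ψ g := by
  obtain ⟨H, _, _, _, κ, hκ, hspan⟩ := exists_hilbert _ hψ
  let Φ : (G →₀ ℂ) →ₗ[ℂ] H := Finsupp.linearCombination ℂ κ
  let f : G → (G →₀ ℂ) →ₗ[ℂ] H := fun g => Finsupp.linearCombination ℂ (fun s => κ (g * s))
  have hd : DenseRange Φ := by
    have : (LinearMap.range Φ : Submodule ℂ H) = Submodule.span ℂ (Set.range κ) :=
      Finsupp.range_linearCombination ℂ
    rw [DenseRange, ← LinearMap.coe_range, this, ← Submodule.dense_iff_topologicalClosure_eq_top]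
      at *
    exact hspan
  have hf : ∀ g a b, ⟪f g a, f g b⟫_ℂ = ⟪Φ a, Φ b⟫_ℂ := by
    intro g a b
    simp only [f, Φ, Finsupp.linearCombination_apply, Finsupp.sum_inner, Finsupp.inner_sum,
      inner_smul_left, inner_smul_right, hκ]
    simp only [mul_inv_rev, mul_assoc, inv_mul_cancel_left]
  have hfn : ∀ g a, ‖f g a‖ = ‖Φ a‖ := by
    intro g a
    rw [@norm_eq_sqrt_re_inner ℂ, @norm_eq_sqrt_re_inner ℂ, hf]
  have hb : ∀ g, ∃ C : ℝ, ∀ a, ‖f g a‖ ≤ C * ‖Φ a‖ := fun g => ⟨1, fun a => by rw [hfn, one_mul]⟩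
  let σ : G → H →L[ℂ] H := fun g => (f g).extendOfNorm Φ
  have hσ : ∀ g a, σ g (Φ a) = f g a := fun g a => LinearMap.extendOfNorm_eq hd (hb g) a
  have hσκ : ∀ g s, σ g (κ s) = κ (g * s) := by
    intro g s
    have h1 := hσ g (Finsupp.single s 1)
    simpa [Φ, f, Finsupp.linearCombination_single] using h1
  have hσf : ∀ g h a, σ g (f h a) = f (g * h) a := by
    intro g h a
    simp only [f, Finsupp.linearCombination_apply, Finsupp.sum, map_sum, map_smul, hσκ, mul_assoc]
  refine ⟨H, inferInstance, inferInstance, inferInstance, σ, κ 1, ⟨?_, ?_, ?_⟩, ?_⟩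
  · intro x
    have h1 : (fun x => σ 1 x) = (fun x => x) := by
      apply hd.equalizer (σ 1).continuous continuous_id
      ext a
      simp only [Function.comp_apply]
      rw [hσ]
      simp only [f, Φ, one_mul]
      rfl
    exact congrFun h1 x
  · intro g h x
    have h1 : (fun x => σ (g * h) x) = (fun x => σ g (σ h x)) := by
      apply hd.equalizer (σ (g * h)).continuous ((σ g).continuous.comp (σ h).continuous)
      ext a
      simp only [Function.comp_apply]
      rw [hσ, hσ, hσf]
    exact congrFun h1 x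
  · intro g x y
    refine hd.induction_on₂ (p := fun x y => ⟪σ g x, σ g y⟫_ℂ = ⟪x, y⟫_ℂ) ?_ ?_ x y
    · apply isClosed_eq
      · fun_prop
      · fun_prop
    · intro a b
      rw [hσ, hσ, hf]
  · intro g
    rw [hσκ, hκ]
    simp

end Pool.Agent.Lib.MP_6b7756_an
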