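import Pool.Agent.Lib.MP_6b7756_an.Mg.G005

/-!
Schur multiplication of coefficients of the left regular representation by a positive type kernel
supported in a tube.
-/

set_option autoImplicit false
set_option linter.unusedSectionVars false

open scoped ComplexOrder InnerProductSpace ComplexConjugate Topology Pointwise ENNReal
open Filter Set MeasureTheory

noncomputable section

namespace Pool.Agent.Lib.MP_6b7756_an

theorem PositiveType.comp_injective {X Y : Type} {K : X → X → ℂ} (h : PositiveType K) {f : Y → X}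
    (hf : Function.Injective f) : PositiveType (fun a b => K (f a) (f b)) := by
  intro s c
  have h1 := h (s.map ⟨f, hf⟩) (Function.extend f c 0)
  simpa [Finset.sum_map, hf.extend_apply] using h1

theorem PositiveType.norm_le {X : Type} {K : X → X → ℂ} (h : PositiveType K) {c : ℝ}
    (hc : ∀ x, ‖K x x‖ ≤ c) (x y : X) : ‖K x y‖ ≤ c := by
  obtain ⟨H, _, _, _, κ, hκ, -⟩ := exists_hilbert K h
  have h1 : ∀ x, ‖κ x‖ ^ 2 ≤ c := by
    intro x
    have := hc x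
    rw [← hκ, inner_self_eq_norm_sq_to_K] at this
    simpa using this
  rw [← hκ]
  refine (norm_inner_le_norm _ _).trans ?_
  nlinarith [h1 x, h1 y, sq_nonneg (‖κ x‖ - ‖κ y‖)]

variable {G : Type} [Group G] [TopologicalSpace G] [IsTopologicalGroup G]
  [LocallyCompactSpace G] [T2Space G] [MeasurableSpace G] [BorelSpace G]
  {μ : Measure G} [μ.IsHaarMeasure]

/-- The Schur product of `ξ * ξ~` with the kernel `k`. -/
def schur (μ : Measure G) (k : G → G → ℂ) (ξ : G → ℂ) (x : G) : ℂ :=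
  ∫ y, k y (x⁻¹ * y) * (ξ y * conj (ξ (x⁻¹ * y))) ∂μ

theorem memLp_translate {ξ : G → ℂ} (hξ : MemLp ξ 2 μ) (x : G) :
    MemLp (fun y => ξ (x⁻¹ * y)) 2 μ :=
  hξ.comp_measurePreserving (measurePreserving_mul_left μ x⁻¹)

theorem integrable_term {k : G → G → ℂ} (hk : ∀ x, Measurable (fun y => k y (x⁻¹ * y)))
    {c : ℝ} (hc : ∀ a b, ‖k a b‖ ≤ c) {ξ : G → ℂ} (hξ : MemLp ξ 2 μ) (a b : G) :
    Integrable (fun z => k (b⁻¹ * z) (a⁻¹ * z) * (ξ (b⁻¹ * z) * conj (ξ (a⁻¹ * z)))) μ := by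
  have h1 : Integrable (fun z => ξ (b⁻¹ * z) * conj (ξ (a⁻¹ * z))) μ := by
    have h2 := (memLp_translate hξ b)
    have h3 := (memLp_translate hξ a).star
    exact h2.integrable_mul h3
  apply h1.bdd_mul (c := c)
  · have h4 : Measurable (fun z => k (b⁻¹ * z) (a⁻¹ * z)) := by
      have h5 := (hk (b⁻¹ * a)).comp (measurable_const_mul b⁻¹)
      have h6 : (fun y => k y ((b⁻¹ * a)⁻¹ * y)) ∘ (fun z => b⁻¹ * z) =
          fun z => k (b⁻¹ * z) (a⁻¹ * z) := by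
        funext z
        simp only [Function.comp_apply]
        congr 1
        group
      rwa [h6] at h5
    exact h4.aestronglyMeasurable
  · filter_upwards with z
    exact hc _ _

theorem schur_posDef {k : G → G → ℂ} (hk : ∀ x, Measurable (fun y => k y (x⁻¹ * y)))
    {c : ℝ} (hc : ∀ a b, ‖k a b‖ ≤ c) (hpos : PositiveType k) {ξ : G → ℂ} (hξ : MemLp ξ 2 μ) :
    PosDef (schur μ k ξ) := by
  intro s d
  have h1 : ∀ a b : G, schur μ k ξ (b⁻¹ * a) =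
      ∫ z, k (b⁻¹ * z) (a⁻¹ * z) * (ξ (b⁻¹ * z) * conj (ξ (a⁻¹ * z))) ∂μ := by
    intro a b
    rw [schur, ← integral_mul_left_eq_self _ b⁻¹]
    simp only [mul_inv_rev, inv_inv, mul_assoc, mul_inv_cancel_left]
  have h2 : ∑ a ∈ s, ∑ b ∈ s, conj (d a) * d b * schur μ k ξ (b⁻¹ * a) =
      ∫ z, ∑ a ∈ s, ∑ b ∈ s, conj (d a) * d b *
        (k (b⁻¹ * z) (a⁻¹ * z) * (ξ (b⁻¹ * z) * conj (ξ (a⁻¹ * z)))) ∂μ := by
    rw [integral_finsetSum]
    · refine Finset.sum_congr rfl fun a _ => ?_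
      rw [integral_finsetSum]
      · refine Finset.sum_congr rfl fun b _ => ?_
        rw [h1, integral_const_mul]
      · intro b _
        exact (integrable_term hk hc hξ a b).const_mul _
    · intro a _
      apply integrable_finsetSum
      intro b _
      exact (integrable_term hk hc hξ a b).const_mul _
  rw [h2]
  apply integral_nonneg
  intro z
  have h3 := (hpos.comp_injective (f := fun a : G => a⁻¹ * z) (fun a b h => by simpa using h)) s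
    (fun a => conj (d a * ξ (a⁻¹ * z)))
  refine h3.trans_eq ?_
  rw [Finset.sum_comm]
  refine Finset.sum_congr rfl fun a _ => Finset.sum_congr rfl fun b _ => ?_
  simp only [map_mul, Complex.conj_conj]
  ring

/-- The coefficient `ξ * ξ~` of the left regular representation. -/
def coeff (μ : Measure G) (ξ : G → ℂ) (x : G) : ℂ := ∫ y, ξ y * conj (ξ (x⁻¹ * y)) ∂μ

theorem coeff_one (ξ : G → ℂ) : coeff μ ξ 1 = ((∫ y, ‖ξ y‖ ^ 2 ∂μ : ℝ) : ℂ) := by
  rw [coeff, ← integral_complex_ofReal]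
  apply integral_congr_ae
  filter_upwards with y
  rw [inv_one, one_mul, Complex.mul_conj, Complex.normSq_eq_norm_sq]

theorem norm_coeff_one (ξ : G → ℂ) : ‖coeff μ ξ 1‖ = ∫ y, ‖ξ y‖ ^ 2 ∂μ := by
  rw [coeff_one, Complex.norm_real, Real.norm_eq_abs, abs_of_nonneg]
  exact integral_nonneg fun y => by positivity

theorem weighted_bound {w : G → ℂ} {c : ℝ} (hc0 : 0 ≤ c) (hw : ∀ y, ‖w y‖ ≤ c) {ξ : G → ℂ}
    (hξ : MemLp ξ 2 μ) (x : G) :
    ‖∫ y, w y * (ξ y * conj (ξ (x⁻¹ * y))) ∂μ‖ ≤ c * ‖coeff μ ξ 1‖ := by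
  have hI : Integrable (fun y => ‖ξ y‖ ^ 2) μ := hξ.integrable_norm_pow (by norm_num)
  have hI' : Integrable (fun y => ‖ξ (x⁻¹ * y)‖ ^ 2) μ :=
    (memLp_translate hξ x).integrable_norm_pow (by norm_num)
  rw [norm_coeff_one]
  have h1 : ∫ y, ‖ξ (x⁻¹ * y)‖ ^ 2 ∂μ = ∫ y, ‖ξ y‖ ^ 2 ∂μ :=
    integral_mul_left_eq_self (fun y => ‖ξ y‖ ^ 2) x⁻¹
  have h2 : c * ∫ y, ‖ξ y‖ ^ 2 ∂μ =
      ∫ y, (c / 2) * ‖ξ y‖ ^ 2 + (c / 2) * ‖ξ (x⁻¹ * y)‖ ^ 2 ∂μ := by
    rw [integral_add (hI.const_mul _) (hI'.const_mul _), integral_const_mul, integral_const_mul,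
      h1]
    ring
  rw [h2]
  refine (norm_integral_le_integral_norm _).trans ?_
  apply integral_mono_of_nonneg
  · filter_upwards with y
    positivity
  · exact (hI.const_mul _).add (hI'.const_mul _)
  · filter_upwards with y
    simp only [norm_mul, RCLike.norm_conj]
    have h3 : ‖w y‖ * (‖ξ y‖ * ‖ξ (x⁻¹ * y)‖) ≤ c * (‖ξ y‖ * ‖ξ (x⁻¹ * y)‖) :=
      mul_le_mul_of_nonneg_right (hw y) (by positivity)
    nlinarith [mul_nonneg hc0 (sq_nonneg (‖ξ y‖ - ‖ξ (x⁻¹ * y)‖))]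

theorem schur_sub {k : G → G → ℂ} (hk : ∀ x, Measurable (fun y => k y (x⁻¹ * y)))
    {c : ℝ} (hc : ∀ a b, ‖k a b‖ ≤ c) {C : Set G} {ε : ℝ} (hε : 0 ≤ ε)
    (hC : ∀ a b, a * b⁻¹ ∈ C → ‖k a b - 1‖ ≤ ε) {ξ : G → ℂ} (hξ : MemLp ξ 2 μ) {x : G}
    (hx : x ∈ C) : ‖schur μ k ξ x - coeff μ ξ x‖ ≤ ε * ‖coeff μ ξ 1‖ := by
  have h1 := integrable_term hk hc hξ x 1
  have h2 := integrable_term (k := fun _ _ => 1) (fun x => measurable_const) (c := 1)
    (fun a b => by simp) hξ x 1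
  simp only [inv_one, one_mul] at h1 h2
  have h3 : schur μ k ξ x - coeff μ ξ x =
      ∫ y, (k y (x⁻¹ * y) - 1) * (ξ y * conj (ξ (x⁻¹ * y))) ∂μ := by
    rw [schur, coeff, ← integral_sub h1 h2]
    congr 1
    funext y
    ring
  rw [h3]
  apply weighted_bound hε _ hξ
  intro y
  apply hC
  rw [mul_inv_rev, inv_inv, mul_inv_cancel_left]
  exact hx

theorem schur_support {k : G → G → ℂ} {L : Set G} (hL : ∀ a b, a * b⁻¹ ∉ L → k a b = 0)
    (ξ : G → ℂ) {x : G} (hx : x ∉ L) : schur μ k ξ x = 0 := by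
  rw [schur]
  have : ∀ y, k y (x⁻¹ * y) = 0 := by
    intro y
    apply hL
    rwa [mul_inv_rev, inv_inv, mul_inv_cancel_left]
  simp [this]

/-- The limit of Schur products. -/
theorem exists_limit {k : G → G → ℂ} (hk : ∀ x, Measurable (fun y => k y (x⁻¹ * y)))
    {c : ℝ} (hc : ∀ a b, ‖k a b‖ ≤ c) (hpos : PositiveType k) {C L : Set G}
    {ε : ℝ} (hε : 0 ≤ ε) (hC : ∀ a b, a * b⁻¹ ∈ C → ‖k a b - 1‖ ≤ ε)
    (hL : ∀ a b, a * b⁻¹ ∉ L → k a b = 0) {φ : G → ℂ}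
    (hφ : φ ∈ closure {ψ : G → ℂ | ∃ ξ : G → ℂ, MemLp ξ 2 μ ∧ ∀ x, ψ x = coeff μ ξ x}) :
    ∃ ψ : G → ℂ, PosDef ψ ∧ (∀ x ∈ C, ‖ψ x - φ x‖ ≤ ε * ‖φ 1‖) ∧ ∀ x, x ∉ L → ψ x = 0 := by
  classical
  rw [mem_closure_iff_ultrafilter] at hφ
  obtain ⟨u, hu, hu2⟩ := hφ
  have hex : ∀ f : G → ℂ, ∃ ξ : G → ℂ, (∃ ξ : G → ℂ, MemLp ξ 2 μ ∧ ∀ x, f x = coeff μ ξ x) →
      (MemLp ξ 2 μ ∧ ∀ x, f x = coeff μ ξ x) := by
    intro f
    by_cases h : ∃ ξ : G → ℂ, MemLp ξ 2 μ ∧ ∀ x, f x = coeff μ ξ x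
    · obtain ⟨ξ, hξ⟩ := h
      exact ⟨ξ, fun _ => hξ⟩
    · exact ⟨0, fun h' => absurd h' h⟩
  choose Ξ hΞ using hex
  have hev : ∀ᶠ f in (u : Filter (G → ℂ)), MemLp (Ξ f) 2 μ ∧ ∀ x, f x = coeff μ (Ξ f) x := by
    filter_upwards [hu] with f hf
    exact hΞ f hf
  have htend : ∀ x : G, Tendsto (fun f : G → ℂ => f x) u (𝓝 (φ x)) := fun x =>
    ((continuous_apply x).tendsto φ).mono_left hu2
  have hc0 : 0 ≤ c := (norm_nonneg _).trans (hc 1 1)
  have hbd : ∀ᶠ f in (u : Filter (G → ℂ)), ‖f 1‖ ≤ ‖φ 1‖ + 1 :=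
    ((htend 1).norm).eventually_le_const (by linarith)
  have hlim : ∀ x : G, ∃ z : ℂ, Tendsto (fun f : G → ℂ => schur μ k (Ξ f) x) u (𝓝 z) := by
    intro x
    have h1 : (Metric.closedBall (0 : ℂ) (c * (‖φ 1‖ + 1))) ∈
        (u.map (fun f : G → ℂ => schur μ k (Ξ f) x) : Filter ℂ) := by
      rw [Ultrafilter.coe_map, mem_map]
      filter_upwards [hev, hbd] with f hf hf2
      rw [mem_preimage, mem_closedBall_zero_iff]
      have h2 := weighted_bound (w := fun y => k y (x⁻¹ * y)) hc0 (fun y => hc _ _) hf.1 x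
      rw [← hf.2] at h2
      exact h2.trans (mul_le_mul_of_nonneg_left hf2 hc0)
    obtain ⟨z, -, hz⟩ := (isCompact_closedBall (0 : ℂ) (c * (‖φ 1‖ + 1))).ultrafilter_le_nhds _
      (le_principal_iff.mpr h1)
    exact ⟨z, hz⟩
  choose ψ hψ using hlim
  refine ⟨ψ, ?_, ?_, ?_⟩
  · intro s d
    have h1 : Tendsto (fun f : G → ℂ => ∑ a ∈ s, ∑ b ∈ s,
        conj (d a) * d b * schur μ k (Ξ f) (b⁻¹ * a)) u
        (𝓝 (∑ a ∈ s, ∑ b ∈ s, conj (d a) * d b * ψ (b⁻¹ * a))) :=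
      tendsto_finsetSum _ fun a _ => tendsto_finsetSum _ fun b _ => (hψ _).const_mul _
    apply ge_of_tendsto h1
    filter_upwards [hev] with f hf
    exact schur_posDef hk hc hpos hf.1 s d
  · intro x hx
    have h1 : Tendsto (fun f : G → ℂ => ‖schur μ k (Ξ f) x - f x‖) u (𝓝 ‖ψ x - φ x‖) :=
      ((hψ x).sub (htend x)).norm
    have h2 : Tendsto (fun f : G → ℂ => ε * ‖f 1‖) u (𝓝 (ε * ‖φ 1‖)) :=
      ((htend 1).norm).const_mul ε
    apply le_of_tendsto_of_tendsto h1 h2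
    filter_upwards [hev] with f hf
    have h3 := schur_sub hk hc hε hC hf.1 hx
    rwa [← hf.2, ← hf.2] at h3
  · intro x hx
    have h1 := hψ x
    simp only [schur_support hL _ hx] at h1
    exact tendsto_nhds_unique h1 tendsto_const_nhds

end Pool.Agent.Lib.MP_6b7756_an
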